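import Pool.Agent.Helper69_DP.Supp

/-! Squad DP, module NDA: expansion of each term at a node -/

open MvPolynomial PGH PGL

namespace Pool.Agent.DP.H69

section span

variable {K R : Type} [Field K] [CommRing R] [Algebra K R]

theorem span_mul_mem {S T U : Set R} {x y : R} (hx : x ∈ Submodule.span K S)
    (hy : y ∈ Submodule.span K T) (h : ∀ s ∈ S, ∀ t ∈ T, s * t ∈ Submodule.span K U) :
    x * y ∈ Submodule.span K U := by
  have h1 := Submodule.mul_mem_mul hx hy
  rw [Submodule.span_mul_span] at h1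
  refine Submodule.span_le.2 ?_ h1
  rintro _ ⟨s, hs, t, ht, rfl⟩
  exact h s hs t ht

/-- the linear forms of combinations -/
theorem lin_comb3 (M α β γ : Fin 3 → K) (a b d : R) :
    lin M (fun c => algebraMap K R (α c) * a + algebraMap K R (β c) * b +
      algebraMap K R (γ c) * d) = algebraMap K R (lin M α) * a + algebraMap K R (lin M β) * b +
        algebraMap K R (lin M γ) * d := by
  simp only [lin, Fin.sum_univ_three, map_add, map_mul, Algebra.algebraMap_self, RingHom.id_apply]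
  ring

theorem lin_comb2 (M α β : Fin 3 → K) (a b : R) :
    lin M (fun c => algebraMap K R (α c) * a + algebraMap K R (β c) * b) =
      algebraMap K R (lin M α) * a + algebraMap K R (lin M β) * b := by
  simp only [lin, Fin.sum_univ_three, map_add, map_mul, Algebra.algebraMap_self, RingHom.id_apply]
  ring

end span

variable {K : Type} [Field K] {N : ℕ}

/-! ### the form in the coordinates of the node -/

/-- the form in the coordinates `x, y, z, x', y'` (with `z' = 0`) -/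
noncomputable def Bt (α β γ : Fin 3 → K) (B : MvPolynomial (Fin 2 × Fin 3) K) :
    MvPolynomial (Fin 5) K :=
  ev1 (fun c => C (α c) * X 0 + C (β c) * X 1 + C (γ c) * X 2)
    (fun c => C (α c) * X 3 + C (β c) * X 4) B

theorem Bt_map {R : Type} [CommRing R] [Algebra K R] (φ : MvPolynomial (Fin 5) K →ₐ[K] R)
    (α β γ : Fin 3 → K) (B : MvPolynomial (Fin 2 × Fin 3) K) :
    φ (Bt α β γ B) = ev1 (fun c => algebraMap K R (α c) * φ (X 0) +
      algebraMap K R (β c) * φ (X 1) + algebraMap K R (γ c) * φ (X 2))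
      (fun c => algebraMap K R (α c) * φ (X 3) + algebraMap K R (β c) * φ (X 4)) B := by
  have hC : ∀ a : K, φ (C a) = algebraMap K R a := fun a => φ.commutes a
  rw [Bt, ev1_map]
  simp only [map_add, map_mul, hC]

variable {L : Fin N → Fin 3 → K} {p c : ℕ} {B : MvPolynomial (Fin 2 × Fin 3) K}

/-- the ring of the weights -/
abbrev PT (K : Type) [Field K] := Polynomial (MvPolynomial (Fin 5) K)

theorem phw_Bt (w : Fin 5 → ℕ) (α β γ : Fin 3 → K) (B : MvPolynomial (Fin 2 × Fin 3) K) :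
    phw w (Bt α β γ B) = ev1 (fun c => algebraMap K (PT K) (α c) *
        (Polynomial.C (X 0) * Polynomial.X ^ w 0) +
      algebraMap K (PT K) (β c) * (Polynomial.C (X 1) * Polynomial.X ^ w 1) +
      algebraMap K (PT K) (γ c) * (Polynomial.C (X 2) * Polynomial.X ^ w 2))
      (fun c => algebraMap K (PT K) (α c) * (Polynomial.C (X 3) * Polynomial.X ^ w 3) +
        algebraMap K (PT K) (β c) * (Polynomial.C (X 4) * Polynomial.X ^ w 4)) B := by
  rw [Bt_map]
  simp only [phw, aeval_X]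

theorem C_Bt (α β γ : Fin 3 → K) (B : MvPolynomial (Fin 2 × Fin 3) K) :
    (Polynomial.C (Bt α β γ B) : PT K) = ev1 (fun c => algebraMap K (PT K) (α c) *
        Polynomial.C (X 0) +
      algebraMap K (PT K) (β c) * Polynomial.C (X 1) +
      algebraMap K (PT K) (γ c) * Polynomial.C (X 2))
      (fun c => algebraMap K (PT K) (α c) * Polynomial.C (X 3) +
        algebraMap K (PT K) (β c) * Polynomial.C (X 4)) B := by
  have := Bt_map (IsScalarTower.toAlgHom K (MvPolynomial (Fin 5) K) (PT K)) α β γ B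
  exact this

theorem Bt_total (α β γ : Fin 3 → K) (hB : B ∈ LogP L Finset.univ p c) (m : Fin 5 →₀ ℕ)
    (hm : m ∈ (Bt α β γ B).support) : m 0 + m 1 + m 2 + m 3 + m 4 = N * p + c := by
  have h := hom_of (fun _ => 1) (Bt α β γ B) (N * p + c) (by
    rw [phw_Bt, C_Bt]
    have h1 := hB.1 (PT K)
      (fun c => algebraMap K (PT K) (α c) * Polynomial.C (X 0) +
      algebraMap K (PT K) (β c) * Polynomial.C (X 1) +
      algebraMap K (PT K) (γ c) * Polynomial.C (X 2))
      (fun c => algebraMap K (PT K) (α c) * Polynomial.C (X 3) +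
        algebraMap K (PT K) (β c) * Polynomial.C (X 4)) Polynomial.X 1 0
    simp only [one_pow, mul_one, Finset.card_univ, Fintype.card_fin, zero_mul, add_zero] at h1
    rw [← h1]
    have e1 : ∀ c, algebraMap K (PT K) (α c) *
        (Polynomial.C (X 0) * Polynomial.X ^ 1) +
      algebraMap K (PT K) (β c) * (Polynomial.C (X 1) * Polynomial.X ^ 1) +
      algebraMap K (PT K) (γ c) * (Polynomial.C (X 2) * Polynomial.X ^ 1) =
      Polynomial.X * (algebraMap K (PT K) (α c) * Polynomial.C (X 0) +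
      algebraMap K (PT K) (β c) * Polynomial.C (X 1) +
      algebraMap K (PT K) (γ c) * Polynomial.C (X 2)) := by
      intro c
      rw [pow_one]
      ring
    have e2 : ∀ c, algebraMap K (PT K) (α c) * (Polynomial.C (X 3) * Polynomial.X ^ 1) +
        algebraMap K (PT K) (β c) * (Polynomial.C (X 4) * Polynomial.X ^ 1) =
        Polynomial.X * (algebraMap K (PT K) (α c) * Polynomial.C (X 3) +
        algebraMap K (PT K) (β c) * Polynomial.C (X 4)) := by
      intro c
      rw [pow_one]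
      ring
    simp only [e1, e2]) m hm
  rw [← h]
  simp [Fin.sum_univ_five]

theorem Bt_weight (α β γ : Fin 3 → K) (hB : B ∈ LogP L Finset.univ p c) (m : Fin 5 →₀ ℕ)
    (hm : m ∈ (Bt α β γ B).support) : m 3 + m 4 = p := by
  have h := hom_of ![0, 0, 0, 1, 1] (Bt α β γ B) p (by
    rw [phw_Bt, C_Bt]
    have h1 := LogP_weight hB (R := PT K)
      (fun c => algebraMap K (PT K) (α c) * Polynomial.C (X 0) +
      algebraMap K (PT K) (β c) * Polynomial.C (X 1) +
      algebraMap K (PT K) (γ c) * Polynomial.C (X 2))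
      (fun c => algebraMap K (PT K) (α c) * Polynomial.C (X 3) +
        algebraMap K (PT K) (β c) * Polynomial.C (X 4)) Polynomial.X
    rw [← h1]
    have e1 : ∀ c, algebraMap K (PT K) (α c) *
        (Polynomial.C (X 0) * Polynomial.X ^ (![0, 0, 0, 1, 1] : Fin 5 → ℕ) 0) +
      algebraMap K (PT K) (β c) * (Polynomial.C (X 1) *
        Polynomial.X ^ (![0, 0, 0, 1, 1] : Fin 5 → ℕ) 1) +
      algebraMap K (PT K) (γ c) * (Polynomial.C (X 2) *
        Polynomial.X ^ (![0, 0, 0, 1, 1] : Fin 5 → ℕ) 2) =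
      algebraMap K (PT K) (α c) * Polynomial.C (X 0) +
      algebraMap K (PT K) (β c) * Polynomial.C (X 1) +
      algebraMap K (PT K) (γ c) * Polynomial.C (X 2) := by
      intro c
      show algebraMap K (PT K) (α c) * (Polynomial.C (X 0) * Polynomial.X ^ 0) +
        algebraMap K (PT K) (β c) * (Polynomial.C (X 1) * Polynomial.X ^ 0) +
        algebraMap K (PT K) (γ c) * (Polynomial.C (X 2) * Polynomial.X ^ 0) = _
      rw [pow_zero, mul_one, mul_one, mul_one]
    have e2 : ∀ c, algebraMap K (PT K) (α c) * (Polynomial.C (X 3) *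
          Polynomial.X ^ (![0, 0, 0, 1, 1] : Fin 5 → ℕ) 3) +
        algebraMap K (PT K) (β c) * (Polynomial.C (X 4) *
          Polynomial.X ^ (![0, 0, 0, 1, 1] : Fin 5 → ℕ) 4) =
        Polynomial.X * (algebraMap K (PT K) (α c) * Polynomial.C (X 3) +
        algebraMap K (PT K) (β c) * Polynomial.C (X 4)) := by
      intro c
      show algebraMap K (PT K) (α c) * (Polynomial.C (X 3) * Polynomial.X ^ 1) +
        algebraMap K (PT K) (β c) * (Polynomial.C (X 4) * Polynomial.X ^ 1) = _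
      rw [pow_one]
      ring
    simp only [e1, e2]) m hm
  rw [← h]
  simp [Fin.sum_univ_five]

/-- the ring of the divisibilities -/
abbrev FT (K : Type) [Field K] := Polynomial (FractionRing (MvPolynomial (Fin 5) K))

/-- the coordinates in this ring -/
noncomputable def fx (K : Type) [Field K] (i : Fin 5) : FractionRing (MvPolynomial (Fin 5) K) :=
  algebraMap (MvPolynomial (Fin 5) K) _ (X i)

theorem fx_ne (i : Fin 5) : fx K i ≠ 0 := by
  intro h
  have : (X i : MvPolynomial (Fin 5) K) = 0 := by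
    apply IsFractionRing.injective (MvPolynomial (Fin 5) K)
      (FractionRing (MvPolynomial (Fin 5) K))
    rw [map_zero]
    exact h
  exact X_ne_zero i this

theorem phw_Bt_map (w : Fin 5 → ℕ) (α β γ : Fin 3 → K) (B : MvPolynomial (Fin 2 × Fin 3) K) :
    (phw w (Bt α β γ B)).map (algebraMap (MvPolynomial (Fin 5) K)
      (FractionRing (MvPolynomial (Fin 5) K))) = ev1 (fun c => algebraMap K (FT K) (α c) *
        (Polynomial.C (fx K 0) * Polynomial.X ^ w 0) +
      algebraMap K (FT K) (β c) * (Polynomial.C (fx K 1) * Polynomial.X ^ w 1) +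
      algebraMap K (FT K) (γ c) * (Polynomial.C (fx K 2) * Polynomial.X ^ w 2))
      (fun c => algebraMap K (FT K) (α c) * (Polynomial.C (fx K 3) * Polynomial.X ^ w 3) +
        algebraMap K (FT K) (β c) * (Polynomial.C (fx K 4) * Polynomial.X ^ w 4)) B := by
  have h := Bt_map ((Polynomial.mapAlgHom (IsScalarTower.toAlgHom K (MvPolynomial (Fin 5) K)
      (FractionRing (MvPolynomial (Fin 5) K)))).comp (phw w)) α β γ B
  have h2 : ∀ i : Fin 5, ((Polynomial.mapAlgHom (IsScalarTower.toAlgHom K (MvPolynomial (Fin 5) K)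
      (FractionRing (MvPolynomial (Fin 5) K)))).comp (phw w)) (X i) =
      Polynomial.C (fx K i) * Polynomial.X ^ w i := by
    intro i
    simp [phw, fx]
  simp only [h2] at h
  exact h

theorem Bt_div {α β γ : Fin 3 → K} {i : Fin N} (hα : lin (L i) α = (1 : K))
    (hβ : lin (L i) β = (0 : K)) (hγ : lin (L i) γ = (0 : K)) (hB : B ∈ LogP L Finset.univ p c)
    (m : Fin 5 →₀ ℕ) (hm : m ∈ (Bt α β γ B).support) : p ≤ m 0 + m 3 := by
  have h := dvd_of ![1, 0, 0, 1, 0] (Bt α β γ B) p (by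
    rw [phw_Bt_map]
    have h1 := hB.2 i (Finset.mem_univ i) (FT K)
      (fun c => algebraMap K (FT K) (α c) * (Polynomial.C (fx K 0) * Polynomial.X ^ 1) +
      algebraMap K (FT K) (β c) * (Polynomial.C (fx K 1) * Polynomial.X ^ 0) +
      algebraMap K (FT K) (γ c) * (Polynomial.C (fx K 2) * Polynomial.X ^ 0))
      (fun c => algebraMap K (FT K) (α c) * (Polynomial.C (fx K 3) * Polynomial.X ^ 1) +
        algebraMap K (FT K) (β c) * (Polynomial.C (fx K 4) * Polynomial.X ^ 0))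
      (Polynomial.C (fx K 3 / fx K 0)) (by
        rw [lin_comb2, lin_comb3, hα, hβ, hγ]
        simp only [map_one, map_zero, zero_mul, add_zero, one_mul, pow_one]
        rw [← mul_assoc, ← Polynomial.C_mul, div_mul_cancel₀ _ (fx_ne 0)])
    rw [lin_comb3, hα, hβ, hγ] at h1
    simp only [map_one, map_zero, zero_mul, add_zero, one_mul] at h1
    exact (pow_dvd_pow_of_dvd (by rw [pow_one]; exact dvd_mul_left _ _) p).trans h1) m hm
  simpa [Fin.sum_univ_five] using h

theorem Bt_div' {α β γ : Fin 3 → K} {i : Fin N} (hα : lin (L i) α = (0 : K))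
    (hβ : lin (L i) β = (1 : K)) (hγ : lin (L i) γ = (0 : K)) (hB : B ∈ LogP L Finset.univ p c)
    (m : Fin 5 →₀ ℕ) (hm : m ∈ (Bt α β γ B).support) : p ≤ m 1 + m 4 := by
  have h := dvd_of ![0, 1, 0, 0, 1] (Bt α β γ B) p (by
    rw [phw_Bt_map]
    have h1 := hB.2 i (Finset.mem_univ i) (FT K)
      (fun c => algebraMap K (FT K) (α c) * (Polynomial.C (fx K 0) * Polynomial.X ^ 0) +
      algebraMap K (FT K) (β c) * (Polynomial.C (fx K 1) * Polynomial.X ^ 1) +
      algebraMap K (FT K) (γ c) * (Polynomial.C (fx K 2) * Polynomial.X ^ 0))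
      (fun c => algebraMap K (FT K) (α c) * (Polynomial.C (fx K 3) * Polynomial.X ^ 0) +
        algebraMap K (FT K) (β c) * (Polynomial.C (fx K 4) * Polynomial.X ^ 1))
      (Polynomial.C (fx K 4 / fx K 1)) (by
        rw [lin_comb2, lin_comb3, hα, hβ, hγ]
        simp only [map_one, map_zero, zero_mul, add_zero, zero_add, one_mul, pow_one]
        rw [← mul_assoc, ← Polynomial.C_mul, div_mul_cancel₀ _ (fx_ne 1)])
    rw [lin_comb3, hα, hβ, hγ] at h1
    simp only [map_one, map_zero, zero_mul, add_zero, zero_add, one_mul] at h1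
    exact (pow_dvd_pow_of_dvd (by rw [pow_one]; exact dvd_mul_left _ _) p).trans h1) m hm
  simpa [Fin.sum_univ_five] using h

/-! ### the factors -/

/-- the elements which occur in the forms -/
def S3 (K : Type) [Field K] (p n : ℕ) : Set (Vr K) :=
  {e | ∃ q q' r s w : ℕ, q + q' = p ∧ r + s + w + 2 * p = n ∧
    e = X 1 ^ p * (X 5 * X 1) ^ q * (X 4 * X 2) ^ q' * (X 1 ^ r * (X 4 * X 1) ^ s * X 0 ^ w)}

theorem mem_S3 {α β γ : Fin 3 → K} {i j : Fin N} (hiα : lin (L i) α = (1 : K))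
    (hiβ : lin (L i) β = (0 : K)) (hiγ : lin (L i) γ = (0 : K)) (hjα : lin (L j) α = (0 : K))
    (hjβ : lin (L j) β = (1 : K)) (hjγ : lin (L j) γ = (0 : K))
    (hB : B ∈ LogP L Finset.univ p c) :
    ev1 (vjet α β γ 0) (vjet α β γ 1) B ∈ Submodule.span K (S3 K p (N * p + c)) := by
  classical
  have h0 : ev1 (vjet α β γ 0) (vjet α β γ 1) B =
      aeval (![X 1, X 4 * X 1, X 0, X 2, X 5 * X 1 + X 4 * X 2] : Fin 5 → Vr K)
        (Bt α β γ B) := by
    have f0 : vjet α β γ 0 = fun c => algebraMap K (Vr K) (α c) * X 1 +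
        algebraMap K (Vr K) (β c) * (X 4 * X 1) + algebraMap K (Vr K) (γ c) * X 0 := rfl
    have f1 : vjet α β γ 1 = fun c => algebraMap K (Vr K) (α c) * X 2 +
        algebraMap K (Vr K) (β c) * (X 5 * X 1 + X 4 * X 2) := rfl
    rw [Bt_map, f0, f1]
    simp only [aeval_X]
    rfl
  rw [h0, ← support_sum_monomial_coeff (Bt α β γ B), map_sum]
  refine Submodule.sum_mem _ fun m hm => ?_
  have e1 := Bt_total α β γ hB m hm
  have e2 := Bt_weight α β γ hB m hm
  have e3 := Bt_div hiα hiβ hiγ hB m hm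
  have e4 := Bt_div' hjα hjβ hjγ hB m hm
  rw [aeval_monomial, Finsupp.prod_fintype _ _ (fun i => pow_zero _), ← Algebra.smul_def]
  refine Submodule.smul_mem _ _ ?_
  rw [Fin.prod_univ_five]
  simp only [Matrix.cons_val]
  obtain ⟨r, hr⟩ : ∃ r, m 0 = m 4 + r := ⟨m 0 - m 4, by omega⟩
  obtain ⟨s, hs⟩ : ∃ s, m 1 = m 3 + s := ⟨m 1 - m 3, by omega⟩
  rw [hr, hs, add_pow (X 5 * X 1 : Vr K), Finset.mul_sum]
  refine Submodule.sum_mem _ fun q hq => ?_
  have hq' : q ≤ m 4 := Nat.lt_succ_iff.mp (Finset.mem_range.mp hq)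
  obtain ⟨q', hq2⟩ : ∃ q', m 4 = q + q' := ⟨m 4 - q, by omega⟩
  have h5 : m 4 - q = q' := by omega
  rw [h5]
  have h6 : ((m 4).choose q : Vr K) = algebraMap K (Vr K) ((m 4).choose q : K) := by
    rw [map_natCast]
  rw [h6, ← mul_assoc, ← Algebra.commutes, ← Algebra.smul_def]
  refine Submodule.smul_mem _ _ (Submodule.subset_span ⟨q, m 3 + q', r, s, m 2, by omega, by omega, ?_⟩)
  rw [← e2, hq2]
  ring

/-- the determinant -/
def S1 (K : Type) [Field K] (n : ℕ) : Set (Vr K) :=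
  {e | ∃ J i : ℕ, J + i = n ∧ e = X 0 ^ n * (X 1 * wr K) ^ J * (X 5 * X 2 ^ 2) ^ i}

theorem mem_S1 (α β γ : Fin 3 → K) (n : ℕ) :
    (Matrix.of (vjet α β γ)).det ^ n ∈ Submodule.span K (S1 K n) := by
  have h1 : (Matrix.of (vjet α β γ)).det = C ((Matrix.of ![α, β, γ]).det) *
      (X 0 * (X 1 * wr K + 2 * (X 5 * X 2 ^ 2))) := by
    rw [Matrix.det_fin_three, Matrix.det_fin_three]
    simp only [Matrix.of_apply, vjet, Matrix.cons_val_zero, Matrix.cons_val_one, Matrix.cons_val,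
      wr, map_add, map_sub, map_mul]
    ring
  rw [h1, mul_pow, ← map_pow, ← MvPolynomial.smul_eq_C_mul, mul_pow, add_pow, Finset.mul_sum]
  refine Submodule.smul_mem _ _ (Submodule.sum_mem _ fun J hJ => ?_)
  have hJ' : J ≤ n := Nat.lt_succ_iff.mp (Finset.mem_range.mp hJ)
  have h2 : (X 0 : Vr K) ^ n * ((X 1 * wr K) ^ J * (2 * (X 5 * X 2 ^ 2)) ^ (n - J) *
      (n.choose J : Vr K)) = algebraMap K (Vr K) (2 ^ (n - J) * (n.choose J : K)) *
      (X 0 ^ n * (X 1 * wr K) ^ J * (X 5 * X 2 ^ 2) ^ (n - J)) := by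
    rw [map_mul, map_pow, map_natCast, map_ofNat]
    ring
  rw [h2, ← Algebra.smul_def]
  exact Submodule.smul_mem _ _ (Submodule.subset_span ⟨J, n - J, by omega, rfl⟩)

/-- the forms in `u, η₀ u, z` -/
def FM (K : Type) [Field K] (n : ℕ) : Set (Vr K) :=
  {e | ∃ r s w : ℕ, r + s + w = n ∧ e = X 1 ^ r * (X 4 * X 1) ^ s * X 0 ^ w}

theorem FM_mul {m n : ℕ} {x y : Vr K} (hx : x ∈ Submodule.span K (FM K m))
    (hy : y ∈ Submodule.span K (FM K n)) : x * y ∈ Submodule.span K (FM K (m + n)) := by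
  refine span_mul_mem hx hy ?_
  rintro _ ⟨r, s, w, h1, rfl⟩ _ ⟨r', s', w', h2, rfl⟩
  exact Submodule.subset_span ⟨r + r', s + s', w + w', by omega, by ring⟩

theorem FM_one : (1 : Vr K) ∈ Submodule.span K (FM K 0) :=
  Submodule.subset_span ⟨0, 0, 0, rfl, by ring⟩

theorem FM_pow {m : ℕ} {x : Vr K} (hx : x ∈ Submodule.span K (FM K m)) (n : ℕ) :
    x ^ n ∈ Submodule.span K (FM K (n * m)) := by
  induction n with
  | zero =>
    rw [pow_zero, Nat.zero_mul]
    exact FM_one
  | succ n ih =>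
    rw [pow_succ, Nat.succ_mul]
    exact FM_mul ih hx

theorem FM_prod {ι : Type*} (S : Finset ι) (f : ι → Vr K)
    (h : ∀ i ∈ S, f i ∈ Submodule.span K (FM K 1)) :
    ∏ i ∈ S, f i ∈ Submodule.span K (FM K S.card) := by
  classical
  induction S using Finset.induction_on with
  | empty => simpa using FM_one (K := K)
  | insert a S ha ih =>
    rw [Finset.prod_insert ha, Finset.card_insert_of_notMem ha, Nat.add_comm]
    exact FM_mul (h a (Finset.mem_insert_self a S))
      (ih fun i hi => h i (Finset.mem_insert_of_mem hi))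

theorem lin_vjet (M α β γ : Fin 3 → K) : lin M (vjet α β γ 0) =
    algebraMap K (Vr K) (lin M α) * X 1 + algebraMap K (Vr K) (lin M β) * (X 4 * X 1) +
      algebraMap K (Vr K) (lin M γ) * X 0 := by
  rw [← lin_comb3]
  rfl

theorem lin_FM (M α β γ : Fin 3 → K) : lin M (vjet α β γ 0) ∈ Submodule.span K (FM K 1) := by
  rw [lin_vjet, ← Algebra.smul_def, ← Algebra.smul_def, ← Algebra.smul_def]
  refine Submodule.add_mem _ (Submodule.add_mem _ ?_ ?_) ?_
  · exact Submodule.smul_mem _ _ (Submodule.subset_span ⟨1, 0, 0, rfl, by ring⟩)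
  · exact Submodule.smul_mem _ _ (Submodule.subset_span ⟨0, 1, 0, rfl, by ring⟩)
  · exact Submodule.smul_mem _ _ (Submodule.subset_span ⟨0, 0, 1, rfl, by ring⟩)

/-- the product of the lines -/
def S2 (K : Type) [Field K] (k n : ℕ) : Set (Vr K) :=
  {e | ∃ r s w : ℕ, r + s + w = n ∧
    e = (X 4 * X 1 ^ 2) ^ k * (X 1 ^ r * (X 4 * X 1) ^ s * X 0 ^ w)}

theorem mem_S2 {α β γ : Fin 3 → K} {i j : Fin N} (hij : i ≠ j) (hiα : lin (L i) α = (1 : K))
    (hiβ : lin (L i) β = (0 : K)) (hiγ : lin (L i) γ = (0 : K)) (hjα : lin (L j) α = (0 : K))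
    (hjβ : lin (L j) β = (1 : K)) (hjγ : lin (L j) γ = (0 : K)) (k : ℕ) :
    (∏ a, lin (L a) (vjet α β γ 0)) ^ k ∈ Submodule.span K (S2 K k (k * (N - 2))) := by
  classical
  have h1 : ∏ a, lin (L a) (vjet α β γ 0) = (X 4 * X 1 ^ 2) *
      ∏ a ∈ (Finset.univ.erase i).erase j, lin (L a) (vjet α β γ 0) := by
    rw [← Finset.mul_prod_erase Finset.univ _ (Finset.mem_univ i),
      ← Finset.mul_prod_erase (Finset.univ.erase i) _
        (Finset.mem_erase.2 ⟨hij.symm, Finset.mem_univ j⟩), lin_vjet (L i), lin_vjet (L j),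
      hiα, hiβ, hiγ, hjα, hjβ, hjγ]
    simp only [map_one, map_zero]
    ring
  have h2 : ((Finset.univ.erase i).erase j).card = N - 2 := by
    rw [Finset.card_erase_of_mem (Finset.mem_erase.2 ⟨hij.symm, Finset.mem_univ j⟩),
      Finset.card_erase_of_mem (Finset.mem_univ i), Finset.card_univ, Fintype.card_fin]
    omega
  have h3 := FM_pow (FM_prod ((Finset.univ.erase i).erase j)
    (fun a => lin (L a) (vjet α β γ 0)) (fun a _ => lin_FM _ _ _ _)) k
  rw [h2] at h3
  rw [h1, mul_pow]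
  have h4 : (X 4 * X 1 ^ 2 : Vr K) ^ k ∈ Submodule.span K {(X 4 * X 1 ^ 2 : Vr K) ^ k} :=
    Submodule.mem_span_singleton_self _
  refine span_mul_mem h4 h3 ?_
  rintro _ rfl _ ⟨r, s, w, h5, rfl⟩
  exact Submodule.subset_span ⟨r, s, w, h5, rfl⟩

theorem nda : NdaStmt := by
  intro K _ N L i j l α β γ t B _ hN hij _ _ hiα hiβ hiγ hjα hjβ hjγ _ _ _ hB
  have h1 := mem_S1 α β γ ((t : ℕ) + 1)
  have h2 := mem_S2 (ne_of_lt hij) hiα hiβ hiγ hjα hjβ hjγ (2 * ((t : ℕ) + 1))
  have h3 := mem_S3 hiα hiβ hiγ hjα hjβ hjγ hB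
  have ht : (t : ℕ) < 20 := t.2
  have h12 : (Matrix.of (vjet α β γ)).det ^ ((t : ℕ) + 1) *
    (∏ a, lin (L a) (vjet α β γ 0)) ^ (2 * ((t : ℕ) + 1)) ∈ Submodule.span K
      {e | ∃ J i r s w : ℕ, J + i = (t : ℕ) + 1 ∧ r + s + w = 2 * ((t : ℕ) + 1) * (N - 2) ∧
        e = (X 0 ^ ((t : ℕ) + 1) * (X 1 * wr K) ^ J * (X 5 * X 2 ^ 2) ^ i) *
        ((X 4 * X 1 ^ 2) ^ (2 * ((t : ℕ) + 1)) * (X 1 ^ r * (X 4 * X 1) ^ s * X 0 ^ w))} := by
    refine span_mul_mem h1 h2 ?_
    rintro _ ⟨J, i, h4, rfl⟩ _ ⟨r, s, w, h5, rfl⟩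
    exact Submodule.subset_span ⟨J, i, r, s, w, h4, h5, rfl⟩
  unfold NM
  refine span_mul_mem h12 h3 ?_
  rintro _ ⟨J, i, r, s, w, h4, h5, rfl⟩ _ ⟨q, q', r', s', w', h6, h7, rfl⟩
  refine Submodule.subset_span ⟨J, i + q, 2 * i + q', r + r', s + s', (t : ℕ) + 1 + w + w', ?_,
    ?_, ?_⟩
  · omega
  · unfold E₀
    unfold tw at h7
    generalize (t : ℕ) = n at *
    clear h1 h2 h3 h12 hB
    interval_cases n <;> omega
  · have e1 : 60 = 57 - 3 * (t : ℕ) + 3 * (J + i) := by omega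
    unfold nel
    rw [← h4]
    have e2 : 60 + 2 * J + (i + q) = (57 - 3 * (t : ℕ)) + 3 * (J + i) + 2 * J + (i + q) := by
      omega
    rw [e2, ← h6]
    ring

end Pool.Agent.DP.H69
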