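import Pool.Agent.Helper69_DP.Supp

/-! Squad DP, module PDG: degree, weight and vertical degree of the differential polynomial -/

open MvPolynomial PGH PGL

namespace Pool.Agent.DP.H69

variable {K : Type} [Field K] {N : ℕ}

/-- the vertical degree is at most `d` -/
def VD (d : ℕ) (P : MvPolynomial (Fin 3 × Fin 3) K) : Prop :=
  ∀ s ∈ P.support, ∑ c : Fin 3, (s (1, c) + s (2, c)) ≤ d

theorem VD.mono {d e : ℕ} {P : MvPolynomial (Fin 3 × Fin 3) K} (h : VD d P) (hde : d ≤ e) :
    VD e P := fun s hs => (h s hs).trans hde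

theorem VD.add {d : ℕ} {P Q : MvPolynomial (Fin 3 × Fin 3) K} (hP : VD d P) (hQ : VD d Q) :
    VD d (P + Q) := by
  classical
  intro s hs
  rcases Finset.mem_union.mp (support_add hs) with h | h
  · exact hP s h
  · exact hQ s h

theorem VD.mul {d e : ℕ} {P Q : MvPolynomial (Fin 3 × Fin 3) K} (hP : VD d P) (hQ : VD e Q) :
    VD (d + e) (P * Q) := by
  classical
  intro s hs
  obtain ⟨a, ha, b, hb, rfl⟩ := Finset.mem_add.mp (support_mul P Q hs)
  have h1 := hP a ha
  have h2 := hQ b hb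
  calc ∑ c : Fin 3, ((a + b) (1, c) + (a + b) (2, c))
      = ∑ c : Fin 3, (a (1, c) + a (2, c)) + ∑ c : Fin 3, (b (1, c) + b (2, c)) := by
        rw [← Finset.sum_add_distrib]
        refine Finset.sum_congr rfl fun c _ => ?_
        simp only [Finsupp.add_apply]
        ring
    _ ≤ d + e := add_le_add h1 h2

theorem VD.C (a : K) : VD 0 (MvPolynomial.C a : MvPolynomial (Fin 3 × Fin 3) K) := by
  classical
  intro s hs
  rw [mem_support_iff, coeff_C] at hs
  split_ifs at hs with h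
  · subst h
    simp
  · exact absurd rfl hs

theorem VD.zero (d : ℕ) : VD d (0 : MvPolynomial (Fin 3 × Fin 3) K) := by
  intro s hs
  simp at hs

theorem VD.sum {ι : Type*} (S : Finset ι) (f : ι → MvPolynomial (Fin 3 × Fin 3) K) {d : ℕ}
    (h : ∀ i ∈ S, VD d (f i)) : VD d (∑ i ∈ S, f i) := by
  classical
  induction S using Finset.induction_on with
  | empty => simpa using VD.zero d
  | insert a S ha ih =>
    rw [Finset.sum_insert ha]
    exact (h a (Finset.mem_insert_self a S)).add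
      (ih fun i hi => h i (Finset.mem_insert_of_mem hi))

theorem VD.pow {d : ℕ} {P : MvPolynomial (Fin 3 × Fin 3) K} (hP : VD d P) (n : ℕ) :
    VD (n * d) (P ^ n) := by
  induction n with
  | zero =>
    rw [pow_zero, Nat.zero_mul]
    exact VD.C 1
  | succ n ih =>
    rw [pow_succ, Nat.succ_mul]
    exact ih.mul hP

theorem VD.prod0 {ι : Type*} (S : Finset ι) (f : ι → MvPolynomial (Fin 3 × Fin 3) K)
    (h : ∀ i ∈ S, VD 0 (f i)) : VD 0 (∏ i ∈ S, f i) := by
  classical
  induction S using Finset.induction_on with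
  | empty => simpa using VD.C (K := K) 1
  | insert a S ha ih =>
    rw [Finset.prod_insert ha]
    exact (h a (Finset.mem_insert_self a S)).mul
      (ih fun i hi => h i (Finset.mem_insert_of_mem hi))

theorem VD.X0 (c : Fin 3) : VD 0 (X (0, c) : MvPolynomial (Fin 3 × Fin 3) K) := by
  classical
  intro s hs
  rw [mem_support_iff, coeff_X'] at hs
  split_ifs at hs with h
  · subst h
    simp [Finsupp.single_apply]
  · exact absurd rfl hs

theorem VD.X1 (r c : Fin 3) : VD 1 (X (r, c) : MvPolynomial (Fin 3 × Fin 3) K) := by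
  classical
  intro s hs
  rw [mem_support_iff, coeff_X'] at hs
  split_ifs at hs with h
  · subst h
    fin_cases r <;> fin_cases c <;> simp [Finsupp.single_apply, Fin.sum_univ_three]
  · exact absurd rfl hs

theorem VD.lin0 (M : Fin 3 → K) :
    VD 0 (lin M (fun c => (X (0, c) : MvPolynomial (Fin 3 × Fin 3) K))) := by
  unfold lin
  exact VD.sum _ _ fun c _ => (VD.C (M c)).mul (VD.X0 c)

theorem VD.neg {d : ℕ} {P : MvPolynomial (Fin 3 × Fin 3) K} (hP : VD d P) : VD d (-P) := by
  intro s hs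
  rw [support_neg] at hs
  exact hP s hs

theorem VD.det : VD 2 (Matrix.of fun r c : Fin 3 =>
    (X (r, c) : MvPolynomial (Fin 3 × Fin 3) K)).det := by
  have h : ∀ a b c : Fin 3, VD 2 ((X (0, a) : MvPolynomial (Fin 3 × Fin 3) K) * X (1, b) *
      X (2, c)) := fun a b c =>
    (((VD.X0 a).mul (VD.X1 1 b)).mul (VD.X1 2 c)).mono (by norm_num)
  rw [Matrix.det_fin_three]
  simp only [Matrix.of_apply, sub_eq_add_neg]
  refine VD.add (VD.add (VD.add (VD.add (VD.add ?_ ?_) ?_) ?_) ?_) ?_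
  · exact h 0 1 2
  · exact (h 0 2 1).neg
  · exact (h 1 0 2).neg
  · exact h 1 2 0
  · exact h 2 0 1
  · exact (h 2 1 0).neg

theorem ev1_C (B : MvPolynomial (Fin 2 × Fin 3) K) :
    ev1 (fun c => (Polynomial.C (X (0, c) : MvPolynomial (Fin 2 × Fin 3) K)))
        (fun c => Polynomial.C (X (1, c))) B = Polynomial.C B := by
  have h := ev1_map (IsScalarTower.toAlgHom K (MvPolynomial (Fin 2 × Fin 3) K)
    (Polynomial (MvPolynomial (Fin 2 × Fin 3) K))) (fun c => X (0, c)) (fun c => X (1, c)) B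
  rw [ev1_self] at h
  exact h.symm

/-- the weight of a logarithmic form -/
theorem LogP_supp {L : Fin N → Fin 3 → K} {S : Finset (Fin N)} {p c : ℕ}
    {B : MvPolynomial (Fin 2 × Fin 3) K} (hB : B ∈ LogP L S p c) (m : Fin 2 × Fin 3 →₀ ℕ)
    (hm : m ∈ B.support) : ∑ c, m (1, c) = p := by
  have h := hom_of (fun i : Fin 2 × Fin 3 => (i.1 : ℕ)) B p (by
    have h1 := LogP_weight hB (R := Polynomial (MvPolynomial (Fin 2 × Fin 3) K))
      (fun c => Polynomial.C (X (0, c))) (fun c => Polynomial.C (X (1, c))) Polynomial.X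
    rw [ev1_C] at h1
    rw [← h1]
    have h2 : (phw (fun i : Fin 2 × Fin 3 => (i.1 : ℕ)) :
        MvPolynomial (Fin 2 × Fin 3) K →ₐ[K] _) =
        ev1 (fun c => (Polynomial.C (X (0, c) : MvPolynomial (Fin 2 × Fin 3) K)))
        (fun c => Polynomial.X * Polynomial.C (X (1, c))) := by
      apply MvPolynomial.algHom_ext
      rintro ⟨r, c⟩
      fin_cases r
      · simp [ev1, phw]
      · simp [ev1, phw]
    rw [h2]) m hm
  rw [← h]
  rw [Fintype.sum_prod_type, Fin.sum_univ_two]
  simp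

theorem VD.ev1 {L : Fin N → Fin 3 → K} {S : Finset (Fin N)} {p c : ℕ}
    {B : MvPolynomial (Fin 2 × Fin 3) K} (hB : B ∈ LogP L S p c) :
    VD p (ev1 (fun c => (X (0, c) : MvPolynomial (Fin 3 × Fin 3) K)) (fun c => X (1, c)) B) := by
  have h1 : ∀ m ∈ B.support, VD p (Pool.Agent.DP.ev1
      (fun c => (X (0, c) : MvPolynomial (Fin 3 × Fin 3) K))
      (fun c => X (1, c)) (monomial m (B.coeff m))) := by
    intro m hm
    have h2 := LogP_supp hB m hm
    unfold Pool.Agent.DP.ev1
    rw [aeval_monomial, Finsupp.prod_fintype _ _ (fun i => pow_zero _), Fintype.prod_prod_type,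
      Fin.prod_univ_two]
    have h3 : VD 0 (∏ c : Fin 3, ((![fun c => (X (0, c) : MvPolynomial (Fin 3 × Fin 3) K),
        fun c => X (1, c)] : Fin 2 → Fin 3 → _) 0 c) ^ m (0, c)) := by
      refine VD.prod0 _ _ fun c _ => ?_
      exact ((VD.X0 c).pow (m (0, c))).mono (by simp)
    have h4 : VD (∑ c, m (1, c)) (∏ c : Fin 3,
        ((![fun c => (X (0, c) : MvPolynomial (Fin 3 × Fin 3) K),
        fun c => X (1, c)] : Fin 2 → Fin 3 → _) 1 c) ^ m (1, c)) := by
      rw [Fin.sum_univ_three, Fin.prod_univ_three]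
      refine ((VD.mul ((VD.X1 1 0).pow _) ((VD.X1 1 1).pow _)).mul ((VD.X1 1 2).pow _)).mono ?_
      omega
    rw [h2] at h4
    have h5 : VD 0 ((algebraMap K (MvPolynomial (Fin 3 × Fin 3) K)) (B.coeff m)) := VD.C _
    exact (h5.mul (h3.mul h4)).mono (by omega)
  have h6 : Pool.Agent.DP.ev1 (fun c => (X (0, c) : MvPolynomial (Fin 3 × Fin 3) K))
      (fun c => X (1, c)) B = ∑ m ∈ B.support, Pool.Agent.DP.ev1
      (fun c => (X (0, c) : MvPolynomial (Fin 3 × Fin 3) K)) (fun c => X (1, c))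
      (monomial m (B.coeff m)) := by
    rw [← map_sum, support_sum_monomial_coeff]
  rw [h6]
  exact VD.sum _ _ h1

theorem pdg : PdgStmt := by
  intro K _ N L B hN hB
  refine ⟨?_, ?_⟩
  · intro R _ _ X lam f s t w
    unfold Pof
    rw [map_sum, map_sum, Finset.mul_sum]
    refine Finset.sum_congr rfl fun τ _ => ?_
    have e1 : ∀ Y : Fin 3 → Fin 3 → R, (aeval (fun p : Fin 3 × Fin 3 => Y p.1 p.2))
        (Matrix.of fun r c : Fin 3 => (MvPolynomial.X (r, c) : MvPolynomial (Fin 3 × Fin 3) K)).det =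
        (Matrix.of Y).det := by
      intro Y
      rw [Matrix.det_fin_three, Matrix.det_fin_three]
      simp only [Matrix.of_apply, map_add, map_sub, map_mul, aeval_X]
    have e2 : ∀ Y : Fin 3 → Fin 3 → R, (aeval (fun p : Fin 3 × Fin 3 => Y p.1 p.2))
        (∏ i, lin (L i) (fun c => (MvPolynomial.X (0, c) : MvPolynomial (Fin 3 × Fin 3) K))) =
        ∏ i, lin (L i) (Y 0) := by
      intro Y
      rw [map_prod]
      refine Finset.prod_congr rfl fun i _ => ?_
      simp only [lin, map_sum, map_mul, AlgHom.commutes, aeval_X]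
    have e3 : ∀ Y : Fin 3 → Fin 3 → R, (aeval (fun p : Fin 3 × Fin 3 => Y p.1 p.2))
        (Pool.Agent.DP.ev1 (fun c => (MvPolynomial.X (0, c) : MvPolynomial (Fin 3 × Fin 3) K))
          (fun c => MvPolynomial.X (1, c)) (B τ)) =
        Pool.Agent.DP.ev1 (Y 0) (Y 1) (B τ) := by
      intro Y
      rw [ev1_map]
      simp only [aeval_X]
    simp only [map_mul, map_pow]
    rw [e1, e1, e2, e2, e3, e3]
    have e4 : (Matrix.of (chg lam f s t w X)).det = lam ^ 3 * f ^ 3 * (Matrix.of X).det := by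
      rw [Matrix.det_fin_three, Matrix.det_fin_three]
      simp only [Matrix.of_apply, chg, Matrix.cons_val_zero, Matrix.cons_val_one, Matrix.cons_val]
      ring
    have e5 : ∏ i, lin (L i) (chg lam f s t w X 0) = lam ^ N * ∏ i, lin (L i) (X 0) := by
      have : ∀ i, lin (L i) (chg lam f s t w X 0) = lam * lin (L i) (X 0) := fun i => by
        rw [show chg lam f s t w X 0 = fun c => lam * X 0 c from rfl, lin_scale]
      simp only [this, Finset.prod_mul_distrib, Finset.prod_const, Finset.card_univ,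
        Fintype.card_fin]
    have e6 := (hB τ).1 R (X 0) (X 1) lam f s
    rw [Finset.card_univ, Fintype.card_fin] at e6
    have e7 : Pool.Agent.DP.ev1 (chg lam f s t w X 0) (chg lam f s t w X 1) (B τ) =
      lam ^ (N * (57 - 3 * (τ : ℕ)) + tw N τ) * f ^ (57 - 3 * (τ : ℕ)) *
        Pool.Agent.DP.ev1 (X 0) (X 1) (B τ) := e6
    rw [e4, e5, e7]
    have hτ : (τ : ℕ) < 20 := τ.2
    have e8 : 60 * N - N / 4 = 3 * ((τ : ℕ) + 1) + N * (2 * ((τ : ℕ) + 1)) +
        (N * (57 - 3 * (τ : ℕ)) + tw N τ) := by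
      unfold tw
      generalize (τ : ℕ) = n at hτ
      interval_cases n <;> omega
    have e9 : 60 = 3 * ((τ : ℕ) + 1) + (57 - 3 * (τ : ℕ)) := by omega
    calc _ = lam ^ (3 * ((τ : ℕ) + 1) + N * (2 * ((τ : ℕ) + 1)) +
        (N * (57 - 3 * (τ : ℕ)) + tw N τ)) * f ^ (3 * ((τ : ℕ) + 1) + (57 - 3 * (τ : ℕ))) *
        ((Matrix.of X).det ^ ((τ : ℕ) + 1) * (∏ i, lin (L i) (X 0)) ^ (2 * ((τ : ℕ) + 1)) *
          Pool.Agent.DP.ev1 (X 0) (X 1) (B τ)) := by
          simp only [mul_pow, pow_add, pow_mul]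
          ring
      _ = _ := by rw [← e8, ← e9]
  · have : VD 60 (Pof L B) := by
      unfold Pof
      refine VD.sum _ _ fun t _ => ?_
      have ht : (t : ℕ) < 20 := t.2
      refine ((VD.mul ((VD.det).pow _) ((VD.prod0 _ _ fun i _ => VD.lin0 (L i)).pow _)).mul
        (VD.ev1 (hB t))).mono ?_
      omega
    exact this

end Pool.Agent.DP.H69
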