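import Pool.Agent.Helper50_DP.LogL

/-! Squad DP: monomials of logarithmic forms, read off from weights -/

open MvPolynomial PGH PGL

namespace Pool.Agent.DP.H69

section weights

variable {K : Type} [Field K] {σ : Type} [Fintype σ]

/-- the substitution `X_i ↦ X_i T ^ w_i` -/
noncomputable def phw (w : σ → ℕ) : MvPolynomial σ K →ₐ[K] Polynomial (MvPolynomial σ K) :=
  aeval fun i => Polynomial.C (X i) * Polynomial.X ^ w i

theorem phw_monomial (w : σ → ℕ) (m : σ →₀ ℕ) (a : K) :
    phw w (monomial m a) = Polynomial.C (monomial m a) * Polynomial.X ^ (∑ i, m i * w i) := by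
  classical
  rw [phw, aeval_monomial, Finsupp.prod_fintype _ _ (fun i => pow_zero _)]
  simp only [mul_pow, Finset.prod_mul_distrib, ← pow_mul, Finset.prod_pow_eq_pow_sum]
  rw [← mul_assoc]
  congr 1
  · rw [monomial_eq, Finsupp.prod_fintype _ _ (fun i => pow_zero _), map_mul, map_prod]
    congr 1
    simp only [map_pow]
  · congr 1
    exact Finset.sum_congr rfl fun i _ => Nat.mul_comm _ _

theorem phw_coeff (w : σ → ℕ) (P : MvPolynomial σ K) (m : σ →₀ ℕ) :
    ((phw w P).coeff (∑ i, m i * w i)).coeff m = P.coeff m := by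
  classical
  induction P using MvPolynomial.induction_on' with
  | add p q hp hq => rw [map_add, Polynomial.coeff_add, coeff_add, hp, hq, coeff_add]
  | monomial n a =>
    rw [phw_monomial, Polynomial.coeff_C_mul, Polynomial.coeff_X_pow]
    by_cases h : n = m
    · subst h
      rw [if_pos rfl, mul_one]
    · split_ifs
      · rw [mul_one]
      · rw [mul_zero, coeff_zero, coeff_monomial, if_neg h]

/-- homogeneity -/
theorem hom_of (w : σ → ℕ) (P : MvPolynomial σ K) (d : ℕ)
    (h : phw w P = Polynomial.X ^ d * Polynomial.C P) (m : σ →₀ ℕ) (hm : m ∈ P.support) :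
    ∑ i, m i * w i = d := by
  classical
  by_contra hne
  have h1 := phw_coeff w P m
  rw [h, Polynomial.coeff_mul_C, Polynomial.coeff_X_pow, if_neg hne, zero_mul, coeff_zero] at h1
  exact (mem_support_iff.mp hm) h1.symm

/-- divisibility -/
theorem dvd_of (w : σ → ℕ) (P : MvPolynomial σ K) (d : ℕ)
    (h : (Polynomial.X : Polynomial (FractionRing (MvPolynomial σ K))) ^ d ∣
      (phw w P).map (algebraMap (MvPolynomial σ K) (FractionRing (MvPolynomial σ K))))
    (m : σ →₀ ℕ) (hm : m ∈ P.support) : d ≤ ∑ i, m i * w i := by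
  by_contra hne
  have h1 := (Polynomial.X_pow_dvd_iff.mp h) _ (not_le.mp hne)
  rw [Polynomial.coeff_map] at h1
  have h2 : (phw w P).coeff (∑ i, m i * w i) = 0 := by
    apply IsFractionRing.injective (MvPolynomial σ K) (FractionRing (MvPolynomial σ K))
    rw [h1, map_zero]
  have h3 := phw_coeff w P m
  rw [h2, coeff_zero] at h3
  exact (mem_support_iff.mp hm) h3.symm

end weights

section nat

variable {K : Type} [Field K]

/-- naturality of the evaluation of the 1-jets -/
theorem ev1_map {R S : Type} [CommRing R] [Algebra K R] [CommRing S] [Algebra K S]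
    (φ : R →ₐ[K] S) (x₀ x₁ : Fin 3 → R) (B : MvPolynomial (Fin 2 × Fin 3) K) :
    φ (ev1 x₀ x₁ B) = ev1 (fun c => φ (x₀ c)) (fun c => φ (x₁ c)) B := by
  have : (φ.comp (ev1 x₀ x₁)) = ev1 (fun c => φ (x₀ c)) (fun c => φ (x₁ c)) := by
    apply MvPolynomial.algHom_ext
    rintro ⟨r, c⟩
    fin_cases r
    · simp [ev1]
    · simp [ev1]
  exact DFunLike.congr_fun this B

theorem ev1_self (B : MvPolynomial (Fin 2 × Fin 3) K) :
    ev1 (fun c => (X (0, c) : MvPolynomial (Fin 2 × Fin 3) K)) (fun c => X (1, c)) B = B := by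
  have : (ev1 (fun c => (X (0, c) : MvPolynomial (Fin 2 × Fin 3) K)) (fun c => X (1, c))) =
      AlgHom.id K (MvPolynomial (Fin 2 × Fin 3) K) := by
    apply MvPolynomial.algHom_ext
    rintro ⟨r, c⟩
    fin_cases r
    · simp [ev1]
    · simp [ev1]
  rw [this]
  rfl

end nat

end Pool.Agent.DP.H69
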